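import Pool.Agent.N166.CZ.Main

/-!
# Few Weil numbers have small rank
-/

set_option autoImplicit false

namespace Pool.Agent.U400.TP

open Polynomial ComplexConjugate Pool.Agent.W484.TB

/-- A rational polynomial with at most `2 r + 1` different complex roots, whose squared absolute
values are powers of the natural number `q`: the roots have rank at most `r` over every field. -/
theorem rank_of_few {q r : ℕ} (hq : q ≠ 0) (E : IntermediateField ℚ ℂ) (P : ℚ[X]) (hP : P ≠ 0)
    (hcard : (P.rootSet ℂ).ncard ≤ 2 * r + 1)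
    (hw : ∀ z : ℂ, aeval z P = 0 → ∃ w : ℤ, ‖z‖ ^ 2 = (q : ℝ) ^ w) :
    RankLEOver E r {z : ℂ | aeval z P = 0} := by
  classical
  have hfin : (P.rootSet ℂ).Finite := P.rootSet_finite ℂ
  have hmem : ∀ z : ℂ, z ∈ P.rootSet ℂ ↔ aeval z P = 0 := by
    intro z
    rw [mem_rootSet]
    exact ⟨fun h => h.2, fun h => ⟨hP, h⟩⟩
  have hconj : ∀ z : ℂ, aeval z P = 0 → aeval (conj z) P = 0 := by
    intro z hz
    have h1 := congrArg (starRingEnd ℂ) hz
    rw [map_zero] at h1
    have h2 := Polynomial.hom_eval₂ P (algebraMap ℚ ℂ) (starRingEnd ℂ) z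
    rw [aeval_def] at h1
    rw [h2] at h1
    rw [aeval_def, ← h1]
    congr 1
    exact RingHom.ext_rat _ _
  let U : Set ℂ := {z | z ∈ P.rootSet ℂ ∧ 0 < z.im}
  let D : Set ℂ := {z | z ∈ P.rootSet ℂ ∧ z.im < 0}
  have hUfin : U.Finite := hfin.subset fun z hz => hz.1
  have hDfin : D.Finite := hfin.subset fun z hz => hz.1
  have hUD : U.ncard = D.ncard := by
    refine Set.ncard_congr (fun z _ => conj z) ?_ ?_ ?_
    · rintro z ⟨hz, hi⟩
      refine ⟨(hmem _).2 (hconj z ((hmem z).1 hz)), ?_⟩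
      rw [Complex.conj_im]
      linarith
    · intro a b _ _ h
      exact (starRingEnd ℂ).injective h
    · rintro z ⟨hz, hi⟩
      refine ⟨conj z, ⟨(hmem _).2 (hconj z ((hmem z).1 hz)), ?_⟩, Complex.conj_conj z⟩
      rw [Complex.conj_im]
      linarith
  have hdisj : Disjoint U D := by
    rw [Set.disjoint_left]
    rintro z ⟨_, h1⟩ ⟨_, h2⟩
    linarith
  have hle : U.ncard ≤ r := by
    have h1 := Set.ncard_union_eq hdisj hUfin hDfin
    have h2 : (U ∪ D).ncard ≤ (P.rootSet ℂ).ncard := by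
      refine Set.ncard_le_ncard ?_ hfin
      rintro z (hz | hz)
      · exact hz.1
      · exact hz.1
    omega
  -- an enumeration
  let S : Finset ℂ := hUfin.toFinset
  have hScard : S.card ≤ r := by
    rwa [← Set.ncard_eq_toFinset_card U hUfin]
  obtain ⟨e⟩ : Nonempty (S ↪ Fin r) := by
    refine Function.Embedding.nonempty_of_card_le ?_
    simpa using hScard
  let u : Fin r → ℂ := fun j => if h : ∃ s : S, e s = j then (h.choose : ℂ) else 1
  have hu : ∀ s : S, u (e s) = (s : ℂ) := by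
    intro s
    have h : ∃ s' : S, e s' = e s := ⟨s, rfl⟩
    change (if h : ∃ s' : S, e s' = e s then (h.choose : ℂ) else 1) = _
    rw [dif_pos h]
    exact congrArg _ (e.injective h.choose_spec)
  have hne : ∀ z : ℂ, aeval z P = 0 → z ≠ 0 := by
    intro z hz h0
    obtain ⟨w, hw⟩ := hw z hz
    rw [h0, norm_zero] at hw
    have : (0 : ℝ) < (q : ℝ) ^ w := zpow_pos (by exact_mod_cast Nat.pos_of_ne_zero hq) w
    rw [← hw] at this
    norm_num at this
  have hqE : ∀ w : ℤ, ((q : ℂ) ^ w) ∈ E := fun w => zpow_mem (natCast_mem E q) w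
  have hq0 : (q : ℂ) ≠ 0 := Nat.cast_ne_zero.2 hq
  refine ⟨u, ?_, ?_⟩
  · intro j
    by_cases h : ∃ s : S, e s = j
    · obtain ⟨s, rfl⟩ := h
      rw [hu]
      have hs : (s : ℂ) ∈ U := hUfin.mem_toFinset.1 s.2
      exact hne _ ((hmem _).1 hs.1)
    · change (if h : ∃ s' : S, e s' = j then (h.choose : ℂ) else 1) ≠ 0
      rw [dif_neg h]
      exact one_ne_zero
  · intro ρ hρ
    have hρ' : aeval ρ P = 0 := hρ
    obtain ⟨w, hw'⟩ := hw ρ hρ'
    have hnorm : ρ * conj ρ = (q : ℂ) ^ w := by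
      rw [Complex.mul_conj, Complex.normSq_eq_norm_sq, hw']
      push_cast
      rfl
    rcases lt_trichotomy ρ.im 0 with hi | hi | hi
    · -- the conjugate is in `U`
      have hc : conj ρ ∈ U := by
        refine ⟨(hmem _).2 (hconj ρ hρ'), ?_⟩
        rw [Complex.conj_im]
        linarith
      let s : S := ⟨conj ρ, hUfin.mem_toFinset.2 hc⟩
      refine ⟨1, (q : ℂ) ^ w, Pi.single (e s) (-1), one_pos, hqE w, zpow_ne_zero _ hq0, ?_⟩
      rw [Finset.prod_eq_single (e s)]
      · rw [hu s, Pi.single_eq_same, pow_one, zpow_neg_one, ← hnorm]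
        have : (conj ρ) ≠ 0 := hne _ (hconj ρ hρ')
        change ρ = ρ * conj ρ * (conj ρ)⁻¹
        rw [mul_inv_cancel_right₀ this]
      · intro j _ hj
        rw [Pi.single_eq_of_ne hj, zpow_zero]
      · intro h
        exact absurd (Finset.mem_univ _) h
    · refine ⟨2, (q : ℂ) ^ w, 0, two_pos, hqE w, zpow_ne_zero _ hq0, ?_⟩
      have hr : conj ρ = ρ := Complex.conj_eq_iff_im.2 hi
      rw [hr] at hnorm
      simp only [Pi.zero_apply, zpow_zero, Finset.prod_const_one, mul_one]
      rw [pow_two, hnorm]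
    · have hc : ρ ∈ U := ⟨(hmem _).2 hρ', hi⟩
      let s : S := ⟨ρ, hUfin.mem_toFinset.2 hc⟩
      refine ⟨1, 1, Pi.single (e s) 1, one_pos, E.one_mem, one_ne_zero, ?_⟩
      rw [Finset.prod_eq_single (e s)]
      · rw [hu s, Pi.single_eq_same, pow_one, zpow_one, one_mul]
      · intro j _ hj
        rw [Pi.single_eq_of_ne hj, zpow_zero]
      · intro h
        exact absurd (Finset.mem_univ _) h

end Pool.Agent.U400.TP
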