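import Pool.Agent.U400.TP.Small

/-!
# Abelian varieties with one Frobenius element in almost all classes of Weil polynomials
-/

set_option autoImplicit false

namespace Pool.Agent.U400.TP

open Polynomial Pool.Agent.N166.CZ Pool.Agent.W484.TB Pool.Agent.W521.Descent Pool.Agent.W521.Count
  Pool.Agent.W521.Frob Pool.Agent.W521.Density

/-- few different eigenvalues, all Weil numbers -/
def Few {k M : Type} [Field k] [CharZero k] [AddCommGroup M] [Module k M] (q d : ℕ)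
    (T : Module.End k M) : Prop :=
  ∃ P : ℚ[X], P ≠ 0 ∧ aeval T (P.map (algebraMap ℚ k)) = 0 ∧ (P.rootSet ℂ).ncard ≤ d ∧
    ∀ z : ℂ, aeval z P = 0 → ∃ w : ℤ, ‖z‖ ^ 2 = (q : ℝ) ^ w

theorem Few.small {k M : Type} [Field k] [CharZero k] [AddCommGroup M] [Module k M] {q r : ℕ}
    (hq : q ≠ 0) {T : Module.End k M} (h : Few q (2 * r + 1) T) (E : IntermediateField ℚ ℂ) :
    SmallRank E r T := by
  obtain ⟨P, h0, h1, h2, h3⟩ := h
  exact ⟨P, h0, h1, rank_of_few hq E P h0 h2 h3⟩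

/-- the property of the families of Weil polynomials -/
def Prop1 {I : Type} [Fintype I] (E : IntermediateField ℚ ℂ) (q r : ℕ) (f : I → ℤ[X]) : Prop :=
  ∀ (k : Type) [Field k] [CharZero k] (V : Type) [AddCommGroup V] [Module k V]
    [FiniteDimensional k V] (Γ : Type) [Group Γ] (ρ : Representation k Γ V) (χ : Γ →* k),
    IsTateModule ρ χ → ∀ γ : Γ, χ γ = q → (ρ γ).charpoly = ∏ i, (f i).map (Int.castRingHom k) →
    ∀ (M : Type) [AddCommGroup M] [Module k M] [FiniteDimensional k M]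
      (σ : Representation k Γ M), (SmallRank E r (σ γ⁻¹) ∨ Few q (2 * r + 1) (σ γ⁻¹)) →
      ProductsWith ρ χ σ

theorem main {I : Type} [Fintype I] (g : I → ℕ) (r : ℕ) (hr : ∀ i, r < g i)
    (E : IntermediateField ℚ ℂ) [FiniteDimensional ℚ E] :
    ∃ C : ℝ, ∀ q : ℕ, IsPrimePow q → ∀ S : I → Set ℤ[X],
      (∀ i, ordinaryWeilPolys q (g i) ⊆ S i ∧ S i ⊆ weilPolys q (g i)) →
      (∀ i, (S i).Finite ∧ (S i).Nonempty) ∧
      ({f : I → ℤ[X] | (∀ i, f i ∈ S i) ∧ ¬ Prop1 E q r f}.ncard : ℝ) ≤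
        C * (Real.log q * (q : ℝ) ^ (-(1 / 6) : ℝ)) * ∏ i, ((S i).ncard : ℝ) := by
  refine count_of_goodU (splitPrimes E) (dense_splitPrimes E) g
    (fun i => (Nat.zero_le r).trans_lt (hr i)) (fun q f => Prop1 E q r f) ?_
  intro q hq x hx k _ _ V _ _ _ Γ _ ρ χ hV γ hχ hγ M _ _ _ σ hσ
  have hT := tateProducts_of_good g E hq.pos.ne' r hr x hx
  refine hT k V Γ ρ χ hV γ hχ hγ M σ ?_
  rcases hσ with h | h
  · exact h
  · exact h.small hq.pos.ne' E

end Pool.Agent.U400.TP
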